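import Pool.Agent.Helper2_TMP.StG

/-!
# FINS: the simultaneous version
-/

open scoped BigOperators

namespace Pool.Agent.DEN.TMP.H53

open Pool.Agent.DEN Pool.Agent.DEN.TMP

/-- The monic polynomials of degree exactly `e`. -/
theorem card_monic (K : Type) [Field K] [Finite K] (e : ℕ) :
    {P : Polynomial K | P.Monic ∧ P.natDegree = e}.Finite ∧
      {P : Polynomial K | P.Monic ∧ P.natDegree = e}.ncard = Nat.card K ^ e := by
  classical
  have eqv : {p : Polynomial K // p.Monic ∧ p.natDegree = e} ≃ (Fin e → K) :=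
    (Polynomial.monicEquivDegreeLT e).trans (Polynomial.degreeLTEquiv K e).toEquiv
  have hfin : Finite {p : Polynomial K // p.Monic ∧ p.natDegree = e} := Finite.of_equiv _ eqv.symm
  refine ⟨Set.finite_coe_iff.1 hfin, ?_⟩
  have h1 : {P : Polynomial K | P.Monic ∧ P.natDegree = e}.ncard =
      Nat.card {p : Polynomial K // p.Monic ∧ p.natDegree = e} := rfl
  rw [h1, Nat.card_congr eqv, Nat.card_fun, Nat.card_fin]

theorem card_monic_le (K : Type) [Field K] [Finite K] (d : ℕ) :
    {P : Polynomial K | P.Monic ∧ P.natDegree ≤ d}.Finite ∧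
      {P : Polynomial K | P.Monic ∧ P.natDegree ≤ d}.ncard ≤ 2 * Nat.card K ^ d := by
  classical
  have hq : 2 ≤ Nat.card K := by
    have := Finite.one_lt_card (α := K)
    omega
  induction d with
  | zero =>
    have h0 := card_monic K 0
    have he : {P : Polynomial K | P.Monic ∧ P.natDegree ≤ 0} =
        {P : Polynomial K | P.Monic ∧ P.natDegree = 0} := by
      ext P; simp
    rw [he]
    exact ⟨h0.1, by rw [h0.2]; simp⟩
  | succ d ih =>
    have h1 := card_monic K (d + 1)
    have he : {P : Polynomial K | P.Monic ∧ P.natDegree ≤ d + 1} =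
        {P : Polynomial K | P.Monic ∧ P.natDegree ≤ d} ∪
        {P : Polynomial K | P.Monic ∧ P.natDegree = d + 1} := by
      ext P
      simp only [Set.mem_union, Set.mem_ofPred_eq]
      constructor
      · rintro ⟨h, h'⟩
        rcases Nat.lt_or_ge d P.natDegree with hd | hd
        · exact Or.inr ⟨h, by omega⟩
        · exact Or.inl ⟨h, hd⟩
      · rintro (⟨h, h'⟩ | ⟨h, h'⟩)
        · exact ⟨h, by omega⟩
        · exact ⟨h, by omega⟩
    rw [he]
    refine ⟨ih.1.union h1.1, (Set.ncard_union_le _ _).trans ?_⟩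
    rw [h1.2]
    have h2 : 2 * Nat.card K ^ d ≤ Nat.card K ^ (d + 1) := by
      rw [pow_succ]
      nlinarith [Nat.zero_le (Nat.card K ^ d)]
    have := ih.2
    omega

/-- FINS. -/
theorem fins (hI : FiniStmt) (hF : FinfStmt) : FinsStmt := by
  intro r C hC hr
  obtain ⟨A₁, hA₁⟩ := hI r C hC hr
  obtain ⟨A₂, hA₂⟩ := hF r C hC hr
  refine ⟨A₁ + 2 * A₂, ?_⟩
  intro K _ _ N hN n f hcusp horth d heigI heigF hbad
  classical
  set RI : ℝ := (((cong C K 1 N).relIndex (arith C K 1) : ℕ) : ℝ) with hRI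
  have hRI0 : 0 ≤ RI := Nat.cast_nonneg _
  have hfinS : {P : Polynomial K | P.Monic ∧ P.natDegree ≤ d}.Finite := (card_monic_le K d).1
  set S : Finset (Polynomial K) :=
    hfinS.toFinset.filter (fun P => Irreducible P ∧ IsCoprime P N) with hS
  have hScard : S.card ≤ 2 * Nat.card K ^ d := by
    refine (Finset.card_filter_le _ _).trans ?_
    rw [← Set.ncard_eq_toFinset_card _ hfinS]
    exact (card_monic_le K d).2
  have hmem : ∀ P ∈ S, P.Monic ∧ P.natDegree ≤ d ∧ Irreducible P ∧ IsCoprime P N := by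
    intro P hP
    rw [hS, Finset.mem_filter, Set.Finite.mem_toFinset] at hP
    exact ⟨hP.1.1, hP.1.2, hP.2.1, hP.2.2⟩
  set J₀ : Finset (Fin n) := Finset.univ.filter (fun j => ¬ TemperedInf (f j)) with hJ₀
  set JP : Polynomial K → Finset (Fin n) :=
    fun P => Finset.univ.filter (fun j => ¬ TemperedFin P N (f j)) with hJP
  have hcov : (Finset.univ : Finset (Fin n)) ⊆ J₀ ∪ S.biUnion JP := by
    intro j _
    rw [Finset.mem_union, Finset.mem_biUnion]
    by_cases h0 : TemperedInf (f j)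
    · right
      have h := hbad j
      rw [not_and] at h
      have h' := h h0
      push Not at h'
      obtain ⟨P, hirr, hmon, hcop, hdeg, hnt⟩ := h'
      refine ⟨P, ?_, ?_⟩
      · rw [hS, Finset.mem_filter, Set.Finite.mem_toFinset]
        exact ⟨⟨hmon, hdeg⟩, hirr, hcop⟩
      · rw [hJP]
        exact Finset.mem_filter.2 ⟨Finset.mem_univ _, hnt⟩
    · left
      rw [hJ₀]
      exact Finset.mem_filter.2 ⟨Finset.mem_univ _, h0⟩
  have hn : (n : ℝ) ≤ J₀.card + ∑ P ∈ S, ((JP P).card : ℝ) := by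
    have h1 : n ≤ J₀.card + ∑ P ∈ S, (JP P).card := by
      calc n = (Finset.univ : Finset (Fin n)).card := (Finset.card_fin n).symm
        _ ≤ (J₀ ∪ S.biUnion JP).card := Finset.card_le_card hcov
        _ ≤ J₀.card + (S.biUnion JP).card := Finset.card_union_le _ _
        _ ≤ J₀.card + ∑ P ∈ S, (JP P).card := by
          have := Finset.card_biUnion_le (s := S) (t := JP)
          omega
    exact_mod_cast h1
  have h0 : (J₀.card * N.natDegree : ℝ) ≤ A₁ * RI := by
    refine hA₁ K N hN J₀.card (fun i => f (J₀.equivFin.symm i).1) (fun j => hcusp _) ?_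
      (fun j => heigI _) ?_
    · intro i j
      rw [horth]
      by_cases hij : i = j
      · simp [hij]
      · rw [if_neg hij, if_neg]
        intro h
        exact hij (J₀.equivFin.symm.injective (Subtype.ext h))
    · intro j
      have hj : ∀ x ∈ J₀, ¬ TemperedInf (f x) := by
        intro x hx
        rw [hJ₀] at hx
        exact (Finset.mem_filter.1 hx).2
      exact hj _ (J₀.equivFin.symm j).2
  have hP : ∀ P ∈ S, ((JP P).card * N.natDegree : ℝ) ≤ A₂ * d * RI := by
    intro P hP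
    obtain ⟨hmon, hdeg, hirr, hcop⟩ := hmem P hP
    have h1 : ((JP P).card * N.natDegree : ℝ) ≤ A₂ * P.natDegree * RI := by
      refine hA₂ K N hN (JP P).card (fun i => f ((JP P).equivFin.symm i).1) (fun j => hcusp _) ?_
        P hirr hcop (fun j => heigF P hirr hmon hcop hdeg _) ?_
      · intro i j
        rw [horth]
        by_cases hij : i = j
        · simp [hij]
        · rw [if_neg hij, if_neg]
          intro h
          exact hij ((JP P).equivFin.symm.injective (Subtype.ext h))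
      · intro j
        have hj : ∀ x ∈ JP P, ¬ TemperedFin P N (f x) := by
          intro x hx
          rw [hJP] at hx
          exact (Finset.mem_filter.1 hx).2
        exact hj _ ((JP P).equivFin.symm j).2
    refine h1.trans ?_
    have h2 : (P.natDegree : ℝ) ≤ d := by exact_mod_cast hdeg
    have h3 : (A₂ : ℝ) * P.natDegree ≤ A₂ * d := mul_le_mul_of_nonneg_left h2 (Nat.cast_nonneg _)
    exact mul_le_mul_of_nonneg_right h3 hRI0
  have hdeg0 : (0 : ℝ) ≤ N.natDegree := Nat.cast_nonneg _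
  have hsum : (n * N.natDegree : ℝ) ≤ A₁ * RI + S.card * (A₂ * d * RI) := by
    calc (n * N.natDegree : ℝ) ≤ (J₀.card + ∑ P ∈ S, ((JP P).card : ℝ)) * N.natDegree :=
          mul_le_mul_of_nonneg_right hn hdeg0
      _ = J₀.card * N.natDegree + ∑ P ∈ S, ((JP P).card * N.natDegree : ℝ) := by
          rw [add_mul, Finset.sum_mul]
      _ ≤ A₁ * RI + ∑ _P ∈ S, (A₂ * d * RI : ℝ) := add_le_add h0 (Finset.sum_le_sum hP)
      _ = A₁ * RI + S.card * (A₂ * d * RI) := by rw [Finset.sum_const, nsmul_eq_mul]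
  refine hsum.trans ?_
  have hq1 : (1 : ℝ) ≤ (Nat.card K : ℝ) ^ d := by
    have : (1 : ℝ) ≤ (Nat.card K : ℝ) := by
      have := Finite.one_lt_card (α := K)
      exact_mod_cast this.le
    exact one_le_pow₀ this
  have hS' : (S.card : ℝ) ≤ 2 * (Nat.card K : ℝ) ^ d := by exact_mod_cast hScard
  have hd0 : (0 : ℝ) ≤ d := Nat.cast_nonneg _
  have hA2 : (0 : ℝ) ≤ A₂ := Nat.cast_nonneg _
  have hA1 : (0 : ℝ) ≤ A₁ := Nat.cast_nonneg _
  have e1 : (S.card : ℝ) * (A₂ * d * RI) ≤ 2 * (Nat.card K : ℝ) ^ d * (A₂ * d * RI) :=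
    mul_le_mul_of_nonneg_right hS' (by positivity)
  have e2 : (A₁ : ℝ) * RI ≤ A₁ * ((d + 1) * (Nat.card K : ℝ) ^ d) * RI := by
    have : (1 : ℝ) ≤ (d + 1) * (Nat.card K : ℝ) ^ d := by nlinarith
    have h3 : (A₁ : ℝ) * 1 ≤ A₁ * ((d + 1) * (Nat.card K : ℝ) ^ d) :=
      mul_le_mul_of_nonneg_left this hA1
    nlinarith
  have e3 : 2 * (Nat.card K : ℝ) ^ d * (A₂ * d * RI) ≤
      2 * A₂ * ((d + 1) * (Nat.card K : ℝ) ^ d) * RI := by
    have h3 : (0 : ℝ) ≤ A₂ * RI * (Nat.card K : ℝ) ^ d := by positivity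
    nlinarith
  push_cast
  have e4 : (A₁ : ℝ) * ((d + 1) * (Nat.card K : ℝ) ^ d) * RI +
      2 * A₂ * ((d + 1) * (Nat.card K : ℝ) ^ d) * RI =
      (A₁ + 2 * A₂) * ((d + 1) * (Nat.card K : ℝ) ^ d) * RI := by ring
  linarith

end Pool.Agent.DEN.TMP.H53
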